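import Mathlib
import Pool.Agent.H22R2.Main

/-!
# Truncated graded representations of `T / I`, for a homogeneous ideal `I`
-/

open Polynomial

namespace Pool.Agent.H551R2

open Pool.Agent.H22R2

noncomputable section

variable {F : Type} [Field F]

/-- the word `μ ↦ X^|μ| μ` -/
def gamHom (F : Type) [Field F] : Wd →* (MonoidAlgebra F Wd)[X] where
  toFun μ := monomial μ.length (MonoidAlgebra.of F Wd μ)
  map_one' := by
    rw [map_one]
    rfl
  map_mul' μ ν := by
    rw [Polynomial.monomial_mul_monomial, map_mul]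
    congr 1
    exact congrArg (fun k => monomial k) (FreeMonoid.length_mul μ ν)

/-- the grading as a homomorphism `T → T[X]` -/
def gam (F : Type) [Field F] : MonoidAlgebra F Wd →ₐ[F] (MonoidAlgebra F Wd)[X] :=
  MonoidAlgebra.lift F (MonoidAlgebra F Wd)[X] Wd (gamHom F)

theorem gam_of (μ : Wd) : gam F (MonoidAlgebra.of F Wd μ) =
    monomial μ.length (MonoidAlgebra.of F Wd μ) := by
  unfold gam
  rw [MonoidAlgebra.lift_of]
  rfl

/-- homogeneous component -/
def hc (n : ℕ) (a : MonoidAlgebra F Wd) : MonoidAlgebra F Wd := (gam F a).coeff n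

theorem hc_add (n : ℕ) (a b : MonoidAlgebra F Wd) : hc n (a + b) = hc n a + hc n b := by
  unfold hc
  rw [map_add, coeff_add]

theorem hc_smul (n : ℕ) (c : F) (a : MonoidAlgebra F Wd) : hc n (c • a) = c • hc n a := by
  unfold hc
  rw [map_smul, coeff_smul]

theorem hc_zero (n : ℕ) : hc n (0 : MonoidAlgebra F Wd) = 0 := by
  unfold hc
  rw [map_zero, coeff_zero]

theorem hc_of (n : ℕ) (μ : Wd) : hc n (MonoidAlgebra.of F Wd μ) =
    if μ.length = n then MonoidAlgebra.of F Wd μ else 0 := by
  unfold hc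
  rw [gam_of, coeff_monomial]

theorem hc_eq_filter (n : ℕ) (a : MonoidAlgebra F Wd) :
    hc n a = MonoidAlgebra.ofCoeff (a.coeff.filter (fun μ => μ.length = n)) := by
  classical
  induction a using MonoidAlgebra.induction_on with
  | of μ =>
    rw [hc_of]
    apply MonoidAlgebra.ext
    apply Finsupp.ext
    intro ν
    split_ifs with h
    · rw [MonoidAlgebra.coeff_ofCoeff, Finsupp.filter_apply, MonoidAlgebra.of_apply,
        MonoidAlgebra.coeff_single, Finsupp.single_apply]
      split_ifs <;> simp_all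
    · rw [MonoidAlgebra.coeff_ofCoeff, Finsupp.filter_apply, MonoidAlgebra.of_apply,
        MonoidAlgebra.coeff_single, Finsupp.single_apply]
      split_ifs <;> simp_all
  | add x y hx hy =>
    rw [hc_add, hx, hy, MonoidAlgebra.coeff_add, Finsupp.filter_add]
    rfl
  | smul r x hx =>
    rw [hc_smul, hx, MonoidAlgebra.coeff_smul, Finsupp.filter_smul]
    rfl

theorem hc_hc (m n : ℕ) (a : MonoidAlgebra F Wd) : hc m (hc n a) = if m = n then hc n a else 0 := by
  induction a using MonoidAlgebra.induction_on with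
  | of μ =>
    rw [hc_of]
    by_cases h : μ.length = n
    · rw [if_pos h, hc_of]
      subst h
      by_cases h2 : m = μ.length
      · rw [if_pos h2, if_pos h2.symm]
      · rw [if_neg h2, if_neg (fun h => h2 h.symm)]
    · rw [if_neg h, hc_zero, ite_self]
  | add x y hx hy =>
    rw [hc_add, hc_add, hx, hy]
    split_ifs <;> simp
  | smul r x hx =>
    rw [hc_smul, hc_smul, hx]
    split_ifs <;> simp

theorem hc_mul (n : ℕ) (a b : MonoidAlgebra F Wd) :
    hc n (a * b) = ∑ x ∈ Finset.HasAntidiagonal.antidiagonal n, hc x.1 a * hc x.2 b := by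
  unfold hc
  rw [map_mul, coeff_mul]

theorem eval_gam (a : MonoidAlgebra F Wd) : (gam F a).eval 1 = a := by
  induction a using MonoidAlgebra.induction_on with
  | of μ => rw [gam_of, eval_monomial, one_pow, mul_one]
  | add x y hx hy => rw [map_add, eval_add, hx, hy]
  | smul r x hx => rw [map_smul, eval_smul, hx]

theorem eq_sum_hc (a : MonoidAlgebra F Wd) :
    a = ∑ i ∈ Finset.range ((gam F a).natDegree + 1), hc i a := by
  conv_lhs => rw [← eval_gam a, eval_eq_sum_range]
  simp only [one_pow, mul_one]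
  rfl

theorem hc_zero_eq (a : MonoidAlgebra F Wd) (h : eps F a = 0) : hc 0 a = 0 := by
  rw [eps_eq] at h
  rw [hc_eq_filter]
  apply MonoidAlgebra.ext
  apply Finsupp.ext
  intro ν
  rw [MonoidAlgebra.coeff_ofCoeff, Finsupp.filter_apply]
  split_ifs with h1
  · have : ν = 1 := FreeMonoid.length_eq_zero.1 h1
    rw [this, h]; rfl
  · rfl

section Ideal

variable (I : TwoSidedIdeal (MonoidAlgebra F Wd))
  (hI : ∀ a ∈ I, ∀ n : ℕ, MonoidAlgebra.ofCoeff (a.coeff.filter (fun μ => μ.length = n)) ∈ I)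

/-- the ideal `I + T_{≥ k}` -/
def Kid (k : ℕ) : TwoSidedIdeal (MonoidAlgebra F Wd) :=
  TwoSidedIdeal.mk' {a | ∀ n < k, hc n a ∈ I}
    (by intro n _; rw [hc_zero]; exact I.zero_mem)
    (by intro a b ha hb n hn; rw [hc_add]; exact I.add_mem (ha n hn) (hb n hn))
    (by
      intro a ha n hn
      have : hc n (-a) = - hc n a := by
        have := hc_smul n (-1 : F) a
        simpa using this
      rw [this]; exact I.neg_mem (ha n hn))
    (by
      intro x y hy n hn
      rw [hc_mul]
      refine I.finsetSum_mem _ _ (fun z hz => I.mul_mem_left _ _ (hy _ ?_))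
      have := Finset.HasAntidiagonal.mem_antidiagonal.1 hz
      omega)
    (by
      intro x y hx n hn
      rw [hc_mul]
      refine I.finsetSum_mem _ _ (fun z hz => I.mul_mem_right _ _ (hx _ ?_))
      have := Finset.HasAntidiagonal.mem_antidiagonal.1 hz
      omega)

theorem mem_Kid (k : ℕ) (a : MonoidAlgebra F Wd) : a ∈ Kid I k ↔ ∀ n < k, hc n a ∈ I := by
  unfold Kid
  rw [TwoSidedIdeal.mem_mk']
  rfl

/-- the truncated quotient -/
abbrev Qk (k : ℕ) : Type := (Kid I k).ringCon.Quotient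

theorem mkK_eq_zero (k : ℕ) (a : MonoidAlgebra F Wd) :
    (Kid I k).ringCon.mkₐ (α := F) a = 0 ↔ ∀ n < k, hc n a ∈ I := by
  rw [← mem_Kid, ← mk_eq_zero]
  rfl

instance finite_Qk (k : ℕ) : Module.Finite F (Qk I k) := by
  classical
  have hfin : {l : List (Fin 3) | l.length < k}.Finite := List.finite_length_lt _ _
  refine ⟨⟨(hfin.toFinset.image (fun l => (Kid I k).ringCon.mkₐ (α := F)
    (MonoidAlgebra.of F Wd (FreeMonoid.ofList l)))), ?_⟩⟩
  rw [eq_top_iff]
  rintro x -
  obtain ⟨a, rfl⟩ := (Kid I k).ringCon.mkₐ_surjective (α := F) x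
  induction a using MonoidAlgebra.induction_on with
  | of μ =>
    by_cases h : μ.length < k
    · apply Submodule.subset_span
      rw [Finset.coe_image]
      refine ⟨FreeMonoid.toList μ, ?_, rfl⟩
      rw [Finset.mem_coe, Set.Finite.mem_toFinset]
      exact h
    · have : (Kid I k).ringCon.mkₐ (α := F) (MonoidAlgebra.of F Wd μ) = 0 := by
        rw [mkK_eq_zero]
        intro n hn
        rw [hc_of, if_neg (by omega)]
        exact I.zero_mem
      rw [this]
      exact Submodule.zero_mem _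
  | add x y hx hy => rw [map_add]; exact Submodule.add_mem _ hx hy
  | smul r x hx => rw [map_smul]; exact Submodule.smul_mem _ _ hx

/-- dimension -/
abbrev dk (k : ℕ) : ℕ := Module.finrank F (Qk I k)

/-- the regular representation -/
def psi (k : ℕ) : MonoidAlgebra F Wd →ₐ[F] Matrix (Fin (dk I k)) (Fin (dk I k)) F :=
  (Algebra.leftMulMatrix (Module.finBasis F (Qk I k))).comp ((Kid I k).ringCon.mkₐ (α := F))

theorem psi_eq_zero (k : ℕ) (a : MonoidAlgebra F Wd) :
    psi I k a = 0 ↔ ∀ n < k, hc n a ∈ I := by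
  rw [← mkK_eq_zero]
  unfold psi
  rw [AlgHom.comp_apply]
  constructor
  · intro h
    exact Algebra.leftMulMatrix_injective _ (h.trans (map_zero _).symm)
  · intro h
    rw [h, map_zero]

/-- the graded version of the regular representation, on words -/
def HkHom (k : ℕ) : Wd →* Matrix (Fin (dk I k)) (Fin (dk I k)) F[X] where
  toFun μ := (X : F[X]) ^ μ.length • (psi I k (MonoidAlgebra.of F Wd μ)).map C
  map_one' := by
    change (X : F[X]) ^ 0 • (psi I k (MonoidAlgebra.of F Wd 1)).map C = 1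
    rw [pow_zero, one_smul, map_one, map_one]
    exact Matrix.map_one _ (map_zero _) (map_one _)
  map_mul' μ ν := by
    rw [map_mul, map_mul, Matrix.map_mul, smul_mul_smul_comm, ← pow_add]
    congr 2
    exact FreeMonoid.length_mul μ ν

/-- the graded version of the regular representation -/
def Hk (k : ℕ) : MonoidAlgebra F Wd →ₐ[F] Matrix (Fin (dk I k)) (Fin (dk I k)) F[X] :=
  MonoidAlgebra.lift F _ Wd (HkHom I k)

theorem Hk_of (k : ℕ) (μ : Wd) : Hk I k (MonoidAlgebra.of F Wd μ) =
    (X : F[X]) ^ μ.length • (psi I k (MonoidAlgebra.of F Wd μ)).map C := by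
  unfold Hk
  rw [MonoidAlgebra.lift_of]
  rfl

theorem Hk_coeff (k : ℕ) (a : MonoidAlgebra F Wd) (i j : Fin (dk I k)) (n : ℕ) :
    (Hk I k a i j).coeff n = psi I k (hc n a) i j := by
  induction a using MonoidAlgebra.induction_on with
  | of μ =>
    rw [Hk_of, hc_of, Matrix.smul_apply, Matrix.map_apply, smul_eq_mul, mul_comm,
      coeff_C_mul, coeff_X_pow]
    split_ifs with h1 h2 h2
    · rw [mul_one]
    · exact absurd h1.symm h2
    · exact absurd h2.symm h1
    · rw [map_zero, mul_zero]; rfl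
  | add x y hx hy =>
    rw [map_add, Matrix.add_apply, coeff_add, hx, hy, hc_add, map_add, Matrix.add_apply]
  | smul r x hx =>
    rw [map_smul, Matrix.smul_apply, coeff_smul, hx, hc_smul, map_smul, Matrix.smul_apply]

theorem Hk_deg (k : ℕ) (a : MonoidAlgebra F Wd) (i j : Fin (dk I k)) (n : ℕ) (hn : k ≤ n) :
    (Hk I k a i j).coeff n = 0 := by
  rw [Hk_coeff]
  have : psi I k (hc n a) = 0 := by
    rw [psi_eq_zero]
    intro m hm
    rw [hc_hc, if_neg (by omega)]
    exact I.zero_mem
  rw [this]; rfl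

theorem Hk_low (k : ℕ) (a : MonoidAlgebra F Wd) (h : eps F a = 0) (i j : Fin (dk I k)) :
    (Hk I k a i j).coeff 0 = 0 := by
  rw [Hk_coeff, hc_zero_eq a h, map_zero]; rfl

include hI in
theorem Hk_ideal (k : ℕ) (a : MonoidAlgebra F Wd) (h : a ∈ I) : Hk I k a = 0 := by
  apply Matrix.ext
  intro i j
  ext n
  rw [Hk_coeff]
  have : psi I k (hc n a) = 0 := by
    rw [psi_eq_zero]
    intro m hm
    rw [hc_hc]
    split_ifs with h1
    · rw [hc_eq_filter]; exact hI a h n
    · exact I.zero_mem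
  rw [this]; rfl

theorem Hk_sep (a : MonoidAlgebra F Wd) (h : a ∉ I) : ∃ k, Hk I k a ≠ 0 := by
  obtain ⟨n, hn⟩ : ∃ n, hc n a ∉ I := by
    by_contra hcon
    push Not at hcon
    apply h
    rw [eq_sum_hc a]
    exact I.finsetSum_mem _ _ (fun i _ => hcon i)
  refine ⟨n + 1, ?_⟩
  intro h0
  have h1 : psi I (n + 1) (hc n a) = 0 := by
    apply Matrix.ext
    intro i j
    rw [← Hk_coeff, h0]
    rfl
  rw [psi_eq_zero] at h1
  have := h1 n (by omega)
  rw [hc_hc, if_pos rfl] at this
  exact hn this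

/-- the graded representation of the quotient -/
def Psi (k : ℕ) : I.ringCon.Quotient →+* Matrix (Fin (dk I k)) (Fin (dk I k)) F[X] :=
  I.ringCon.lift (Hk I k).toRingHom (by
    intro x y hxy
    have h1 : x - y ∈ I := by rw [TwoSidedIdeal.rel_iff] at hxy; exact hxy
    have h2 := Hk_ideal I hI k _ h1
    rw [map_sub, sub_eq_zero] at h2
    exact h2)

theorem Psi_mk (k : ℕ) (a : MonoidAlgebra F Wd) : Psi I hI k (I.ringCon.mk' a) = Hk I k a := rfl

theorem Psi_deg (k : ℕ) (q : I.ringCon.Quotient) (i j : Fin (dk I k)) (n : ℕ) (hn : k ≤ n) :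
    (Psi I hI k q i j).coeff n = 0 := by
  obtain ⟨a, rfl⟩ := I.ringCon.mk'_surjective q
  rw [Psi_mk]
  exact Hk_deg I k a i j n hn

theorem Psi_low (k : ℕ) (q : I.ringCon.Quotient) (hq : q ∈ augIdeal I) (i j : Fin (dk I k)) :
    (Psi I hI k q i j).coeff 0 = 0 := by
  obtain ⟨a, ha, rfl⟩ := (mem_augIdeal I q).mp hq
  rw [Psi_mk]
  exact Hk_low I k a ha i j

theorem Psi_sep (q : I.ringCon.Quotient) (hq : q ≠ 0) : ∃ k, Psi I hI k q ≠ 0 := by
  obtain ⟨a, rfl⟩ := I.ringCon.mk'_surjective q
  have : a ∉ I := fun h => hq ((mk_eq_zero I a).2 h)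
  obtain ⟨k, hk⟩ := Hk_sep I a this
  exact ⟨k, by rw [Psi_mk]; exact hk⟩

end Ideal

end

end Pool.Agent.H551R2
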