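import Mathlib

/-!
# Rings of functions on a tree

`treeRing φ` : functions on the tree `List J` with values in a ring `A` which are, up to finitely
many defects, propagated from a node to its child number `j` by the endomorphism `φ j`.
-/

namespace Pool.Agent.H551R2

/-- `pw x n = x ^ (n+1)` -/
def pw {A : Type*} [Mul A] (x : A) : ℕ → A
  | 0 => x
  | n + 1 => x * pw x n

/-- nilpotent, in a ring without unit -/
def NN {A : Type*} [Mul A] [Zero A] (x : A) : Prop := ∃ n, pw x n = 0

theorem iter_eq_pw {A : Type*} [Mul A] (x : A) (n : ℕ) : (fun y => x * y)^[n] x = pw x n := by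
  induction n with
  | zero => rfl
  | succ n ih => rw [Function.iterate_succ_apply', ih]; rfl

theorem map_pw {A B : Type*} [NonUnitalNonAssocSemiring A] [NonUnitalNonAssocSemiring B]
    (g : A →ₙ+* B) (x : A) (n : ℕ) : g (pw x n) = pw (g x) n := by
  induction n with
  | zero => rfl
  | succ n ih => simp only [pw, map_mul, ih]

theorem pw_apply {ι A : Type*} [Mul A] (f : ι → A) (n : ℕ) (u : ι) :
    pw f n u = pw (f u) n := by
  induction n with
  | zero => rfl
  | succ n ih => simp only [pw, Pi.mul_apply, ih]

theorem pw_rot {A : Type*} [NonUnitalRing A] (x y : A) (n : ℕ) :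
    pw (x * y) (n + 1) = x * pw (y * x) n * y := by
  induction n with
  | zero => simp only [pw, mul_assoc]
  | succ n ih =>
    rw [pw, ih]
    simp only [pw, mul_assoc]

theorem NN.rot {A : Type*} [NonUnitalRing A] {x y : A} (h : NN (y * x)) : NN (x * y) := by
  obtain ⟨n, hn⟩ := h
  exact ⟨n + 1, by rw [pw_rot, hn, mul_zero, zero_mul]⟩

/-- left nil ideal -/
def NilLeft {A : Type*} [NonUnitalRing A] (L : AddSubgroup A) : Prop :=
  (∀ (r x : A), x ∈ L → r * x ∈ L) ∧ ∀ x ∈ L, NN x

/-- sum of nil left ideals -/
def SumNil (A : Type*) [NonUnitalRing A] : Prop :=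
  ∀ a : A, a ∈ AddSubgroup.closure {x : A | ∃ L : AddSubgroup A, NilLeft L ∧ x ∈ L}

theorem NilLeft.map {A B : Type*} [NonUnitalRing A] [NonUnitalRing B] (g : A →ₙ+* B)
    (hg : Function.Surjective g) {L : AddSubgroup A} (hL : NilLeft L) :
    NilLeft (L.map (g : A →+ B)) := by
  constructor
  · rintro r _ ⟨x, hx, rfl⟩
    obtain ⟨r, rfl⟩ := hg r
    exact ⟨r * x, hL.1 r x hx, map_mul g r x⟩
  · rintro _ ⟨x, hx, rfl⟩
    obtain ⟨n, hn⟩ := hL.2 x hx
    refine ⟨n, ?_⟩
    change pw (g x) n = 0
    rw [← map_pw, hn, map_zero]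

theorem SumNil.map {A B : Type*} [NonUnitalRing A] [NonUnitalRing B] (g : A →ₙ+* B)
    (hg : Function.Surjective g) (h : SumNil A) : SumNil B := by
  intro b
  obtain ⟨a, rfl⟩ := hg b
  have : (g : A →+ B) a ∈ (AddSubgroup.closure
      {x : A | ∃ L : AddSubgroup A, NilLeft L ∧ x ∈ L}).map (g : A →+ B) := ⟨a, h a, rfl⟩
  rw [AddMonoidHom.map_closure] at this
  refine AddSubgroup.closure_mono ?_ this
  rintro _ ⟨x, ⟨L, hL, hx⟩, rfl⟩
  exact ⟨_, hL.map g hg, ⟨x, hx, rfl⟩⟩

theorem SumNil.subsingleton {A : Type*} [NonUnitalRing A] (h : SumNil A)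
    (h' : ∀ L : AddSubgroup A, NilLeft L → L = ⊥) : Subsingleton A := by
  have key : AddSubgroup.closure {x : A | ∃ L : AddSubgroup A, NilLeft L ∧ x ∈ L} = ⊥ := by
    rw [AddSubgroup.closure_eq_bot_iff]
    rintro x ⟨L, hL, hx⟩
    rw [h' L hL] at hx
    exact hx
  refine ⟨fun a b => ?_⟩
  have ha := h a
  have hb := h b
  rw [key, AddSubgroup.mem_bot] at ha hb
  rw [ha, hb]

section Tree

variable {A : Type} [NonUnitalRing A] {J : Type} (φ : J → A →ₙ+* A)

/-- the defect of `f` -/
def dl (f : List J → A) : List J → A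
  | [] => f []
  | j :: u => f (j :: u) - φ j (f u)

theorem dl_nil (f : List J → A) : dl φ f [] = f [] := rfl

theorem dl_cons (f : List J → A) (j : J) (u : List J) :
    dl φ f (j :: u) = f (j :: u) - φ j (f u) := rfl

theorem dl_inj {f g : List J → A} (h : dl φ f = dl φ g) : f = g := by
  funext v
  induction v with
  | nil => exact congrFun h []
  | cons j u ih =>
    have := congrFun h (j :: u)
    rw [dl_cons, dl_cons, ih] at this
    exact sub_left_injective this

/-- the defect as an additive map -/
def dlHom : (List J → A) →+ (List J → A) where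
  toFun := dl φ
  map_zero' := by
    funext v
    cases v with
    | nil => rfl
    | cons j u => simp [dl_cons]
  map_add' f g := by
    funext v
    cases v with
    | nil => rfl
    | cons j u =>
      simp only [dl_cons, Pi.add_apply, map_add]
      abel

theorem dlHom_apply (f : List J → A) : dlHom φ f = dl φ f := rfl

/-- the ring -/
def treeRing : NonUnitalSubring (List J → A) where
  carrier := {f | (Function.support (dl φ f)).Finite}
  zero_mem' := by
    change (Function.support (dlHom φ 0)).Finite
    rw [map_zero, Function.support_zero]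
    exact Set.finite_empty
  add_mem' := by
    intro f g hf hg
    change (Function.support (dlHom φ (f + g))).Finite
    rw [map_add]
    exact (Set.Finite.union hf hg).subset (Function.support_add _ _)
  neg_mem' := by
    intro f hf
    change (Function.support (dlHom φ (-f))).Finite
    rw [map_neg, Function.support_neg]
    exact hf
  mul_mem' := by
    intro f g hf hg
    refine (Set.Finite.union hf hg).subset ?_
    intro v hv
    by_contra hcon
    rw [Set.mem_union, not_or, Function.notMem_support, Function.notMem_support] at hcon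
    obtain ⟨h1, h2⟩ := hcon
    apply hv
    cases v with
    | nil =>
      rw [dl_nil] at *
      rw [Pi.mul_apply, h1, zero_mul]
    | cons j u =>
      rw [dl_cons, sub_eq_zero] at *
      rw [Pi.mul_apply, Pi.mul_apply, h1, h2, map_mul]

theorem mem_treeRing {f : List J → A} : f ∈ treeRing φ ↔ (Function.support (dl φ f)).Finite :=
  Iff.rfl

open Classical in
/-- the section with value `a` at `t` propagated to the cone above `t` -/
noncomputable def sec (t : List J) (a : A) : List J → A
  | [] => if [] = t then a else 0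
  | j :: w => if j :: w = t then a else φ j (sec t a w)

theorem sec_nil (t : List J) (a : A) : sec φ t a [] = open Classical in if [] = t then a else 0 :=
  rfl

theorem sec_cons (t : List J) (a : A) (j : J) (w : List J) :
    sec φ t a (j :: w) = open Classical in if j :: w = t then a else φ j (sec φ t a w) := rfl

theorem sec_self (t : List J) (a : A) : sec φ t a t = a := by
  cases t with
  | nil => rw [sec_nil, if_pos rfl]
  | cons j w => rw [sec_cons, if_pos rfl]

theorem sec_of_length_lt (t : List J) (a : A) (v : List J) (h : v.length < t.length) :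
    sec φ t a v = 0 := by
  induction v with
  | nil =>
    rw [sec_nil, if_neg]
    rintro rfl
    exact lt_irrefl _ h
  | cons j w ih =>
    rw [sec_cons, if_neg, ih, map_zero]
    · rw [List.length_cons] at h; omega
    · rintro rfl
      exact lt_irrefl _ h

theorem suffix_of_sec_ne (t : List J) (a : A) (v : List J) (h : sec φ t a v ≠ 0) : t <:+ v := by
  induction v with
  | nil =>
    rw [sec_nil] at h
    by_cases h1 : [] = t
    · rw [← h1]
    · rw [if_neg h1] at h; exact absurd rfl h
  | cons j w ih =>
    rw [sec_cons] at h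
    by_cases h1 : j :: w = t
    · rw [← h1]
    · rw [if_neg h1] at h
      have : sec φ t a w ≠ 0 := by
        intro h2
        rw [h2, map_zero] at h
        exact h rfl
      exact (ih this).trans (List.suffix_cons j w)

open Classical in
theorem dl_sec (t : List J) (a : A) : dl φ (sec φ t a) = Pi.single t a := by
  funext v
  by_cases hv : v = t
  · subst hv
    rw [Pi.single_eq_same]
    cases v with
    | nil => rw [dl_nil, sec_self]
    | cons j w =>
      rw [dl_cons, sec_self, sec_of_length_lt φ (j :: w) a w (by simp), map_zero, sub_zero]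
  · rw [Pi.single_eq_of_ne hv]
    cases v with
    | nil => rw [dl_nil, sec_nil, if_neg hv]
    | cons j w => rw [dl_cons, sec_cons, if_neg hv, sub_self]

theorem sec_mem (t : List J) (a : A) : sec φ t a ∈ treeRing φ := by
  classical
  rw [mem_treeRing, dl_sec]
  exact (Set.finite_singleton t).subset (Pi.support_single_subset)

/-- `a ↦ sec t a` as a homomorphism -/
noncomputable def secHom (t : List J) : A →ₙ+* treeRing φ where
  toFun a := ⟨sec φ t a, sec_mem φ t a⟩
  map_zero' := by
    apply Subtype.ext
    funext v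
    change sec φ t 0 v = 0
    induction v with
    | nil => rw [sec_nil]; split_ifs <;> rfl
    | cons j w ih => rw [sec_cons, ih, map_zero]; split_ifs <;> rfl
  map_add' a b := by
    apply Subtype.ext
    funext v
    change sec φ t (a + b) v = sec φ t a v + sec φ t b v
    induction v with
    | nil => simp only [sec_nil]; split_ifs <;> simp
    | cons j w ih => simp only [sec_cons, ih, map_add]; split_ifs <;> rfl
  map_mul' a b := by
    apply Subtype.ext
    funext v
    change sec φ t (a * b) v = sec φ t a v * sec φ t b v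
    induction v with
    | nil => simp only [sec_nil]; split_ifs <;> simp
    | cons j w ih => simp only [sec_cons, ih, map_mul]; split_ifs <;> rfl

theorem coe_secHom (t : List J) (a : A) : (secHom φ t a : List J → A) = sec φ t a := rfl

theorem eq_sum (f : treeRing φ) :
    f = ∑ t ∈ ((mem_treeRing φ).1 f.2).toFinset, secHom φ t (dl φ f t) := by
  classical
  apply Subtype.ext
  apply dl_inj φ
  have hc : ((∑ t ∈ ((mem_treeRing φ).1 f.2).toFinset, secHom φ t (dl φ f t) : treeRing φ) :
      List J → A) = ∑ t ∈ ((mem_treeRing φ).1 f.2).toFinset, sec φ t (dl φ f t) :=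
    map_sum (NonUnitalSubringClass.subtype (treeRing φ)) _ _
  rw [hc, ← dlHom_apply φ (∑ _ ∈ _, _), map_sum]
  simp only [dlHom_apply, dl_sec]
  funext v
  rw [Finset.sum_apply]
  simp only [Pi.single_apply]
  rw [Finset.sum_ite_eq]
  split_ifs with h
  · rfl
  · rw [Set.Finite.mem_toFinset, Function.notMem_support] at h
    exact h

theorem pw_coe (x : treeRing φ) (n : ℕ) (v : List J) :
    (pw x n : treeRing φ).1 v = pw (x.1 v) n := by
  rw [← pw_apply]
  exact congrFun (map_pw (NonUnitalSubringClass.subtype (treeRing φ)) x n) v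

/-- supported in the cone of `u` -/
def Cone (u : List J) (f : treeRing φ) : Prop := ∀ v, (f : List J → A) v ≠ 0 → u <:+ v

theorem cone_sec (t : List J) (a : A) : Cone φ t (secHom φ t a) := by
  intro v hv
  exact suffix_of_sec_ne φ t a v hv

theorem cone_mono {u t : List J} (h : u <:+ t) {f : treeRing φ} (hf : Cone φ t f) :
    Cone φ u f := fun v hv => h.trans (hf v hv)

theorem dl_cone {u : List J} {f : treeRing φ} (hf : Cone φ u f) (t : List J)
    (h : dl φ f t ≠ 0) : u <:+ t := by
  cases t with
  | nil => exact hf [] h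
  | cons j w =>
    rw [dl_cons] at h
    by_cases h1 : (f : List J → A) (j :: w) = 0
    · have h2 : (f : List J → A) w ≠ 0 := by
        intro h2
        rw [h1, h2, map_zero, sub_zero] at h
        exact h rfl
      exact (hf w h2).trans (List.suffix_cons j w)
    · exact hf _ h1

theorem dl_cone_self {u : List J} {f : treeRing φ} (hf : Cone φ u f) :
    dl φ f u = (f : List J → A) u := by
  cases u with
  | nil => rfl
  | cons j w =>
    rw [dl_cons]
    have : (f : List J → A) w = 0 := by
      by_contra h
      have := (hf w h).length_le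
      simp at this
    rw [this, map_zero, sub_zero]

theorem suffix_cases {u t : List J} (h : u <:+ t) (hne : t ≠ u) : ∃ j, j :: u <:+ t := by
  obtain ⟨s, rfl⟩ := h
  induction s using List.reverseRecOn with
  | nil => exact absurd rfl hne
  | append_singleton s j _ => exact ⟨j, ⟨s, by simp⟩⟩

/-- two incomparable cones -/
theorem cone_mul_zero {u v : List J} {f g : treeRing φ} (hf : Cone φ u f) (hg : Cone φ v g)
    (h1 : ¬ u <:+ v) (h2 : ¬ v <:+ u) (r : treeRing φ) : f * r * g = 0 := by
  apply Subtype.ext
  funext w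
  change (f : List J → A) w * (r : List J → A) w * (g : List J → A) w = 0
  by_cases hfw : (f : List J → A) w = 0
  · rw [hfw, zero_mul, zero_mul]
  by_cases hgw : (g : List J → A) w = 0
  · rw [hgw, mul_zero]
  rcases List.suffix_or_suffix_of_suffix (hf w hfw) (hg w hgw) with h | h
  · exact absurd h h1
  · exact absurd h h2

/-- (1): no nil one-sided ideals -/
theorem no_nil (H1 : ∀ a : A, a ≠ 0 → {j | ∃ r, ¬ NN (r * φ j a)}.Infinite)
    (L : AddSubgroup (treeRing φ))
    (hL : (∀ (r x : treeRing φ), x ∈ L → r * x ∈ L) ∨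
      (∀ (r x : treeRing φ), x ∈ L → x * r ∈ L))
    (hnil : ∀ x ∈ L, NN x) : L = ⊥ := by
  rw [AddSubgroup.eq_bot_iff_forall]
  intro f hf
  by_contra hne
  obtain ⟨u, hu⟩ : ∃ u, (f : List J → A) u ≠ 0 := by
    by_contra hcon
    push Not at hcon
    exact hne (Subtype.ext (funext hcon))
  have hfin : {j | dl φ (f : List J → A) (j :: u) ≠ 0}.Finite := by
    have h0 := (mem_treeRing φ).1 f.2
    refine Set.Finite.preimage (f := fun j => j :: u) ?_ h0
    intro a _ b _ hab
    exact (List.cons.inj hab).1
  obtain ⟨j, ⟨r, hr⟩, hj⟩ := (H1 _ hu).exists_notMem_finite hfin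
  rw [Set.mem_ofPred_eq, not_not, dl_cons, sub_eq_zero] at hj
  rw [← hj] at hr
  rcases hL with hL | hL
  · obtain ⟨n, hn⟩ := hnil _ (hL (secHom φ (j :: u) r) f hf)
    apply hr
    refine ⟨n, ?_⟩
    have := congrFun (congrArg Subtype.val hn) (j :: u)
    rw [pw_coe] at this
    have h3 : (secHom φ (j :: u) r * f).1 (j :: u) =
        r * (f : List J → A) (j :: u) := by
      change sec φ (j :: u) r (j :: u) * _ = _
      rw [sec_self]
    rw [h3] at this
    exact this
  · obtain ⟨n, hn⟩ := hnil _ (hL (secHom φ (j :: u) r) f hf)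
    apply hr
    apply NN.rot
    refine ⟨n, ?_⟩
    have := congrFun (congrArg Subtype.val hn) (j :: u)
    rw [pw_coe] at this
    have h3 : (f * secHom φ (j :: u) r).1 (j :: u) =
        (f : List J → A) (j :: u) * r := by
      change _ * sec φ (j :: u) r (j :: u) = _
      rw [sec_self]
    rw [h3] at this
    exact this

section Prime

variable {S : Type} [NonUnitalRing S] (g : treeRing φ →ₙ+* S) (hg : Function.Surjective g)
  (hS : ∀ a b : S, (∀ r : S, a * r * b = 0) → a = 0 ∨ b = 0)

/-- if the branch stops at `u`, then `g` on the cone of `u` factors through the value at `u` -/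
theorem caseA (u : List J) (hu : ∀ (j : J) (f : treeRing φ), Cone φ (j :: u) f → g f = 0)
    (f : treeRing φ) (hf : Cone φ u f) :
    g f = g (secHom φ u ((f : List J → A) u)) := by
  classical
  have h1 := congrArg g (eq_sum φ f)
  rw [map_sum] at h1
  rw [h1, Finset.sum_eq_single u]
  · rw [dl_cone_self φ hf]
  · intro t ht htu
    rw [Set.Finite.mem_toFinset, Function.mem_support] at ht
    obtain ⟨j, hj⟩ := suffix_cases (dl_cone φ hf t ht) htu
    exact hu j _ (cone_mono φ hj (cone_sec φ t _))
  · intro hnot
    rw [Set.Finite.mem_toFinset, Function.notMem_support] at hnot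
    rw [hnot, map_zero, map_zero]

include hg hS in
/-- if the branch does not stop, `S` is nil -/
theorem caseB (H2 : ∀ j x, NN (φ j x))
    (hu : ∀ n, ∃ u : List J, u.length = n ∧ ∃ f, Cone φ u f ∧ g f ≠ 0) (s : S) : NN s := by
  obtain ⟨f, rfl⟩ := hg s
  obtain ⟨N, hN⟩ : ∃ N, ∀ t, dl φ f t ≠ 0 → t.length ≤ N := by
    obtain ⟨N, hN⟩ := (((mem_treeRing φ).1 f.2).image List.length).bddAbove
    exact ⟨N, fun t ht => hN ⟨t, ht, rfl⟩⟩
  obtain ⟨v, hv, e, he, hge⟩ := hu (N + 1)
  obtain ⟨j, u, rfl⟩ : ∃ j u, v = j :: u := by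
    cases v with
    | nil => simp at hv
    | cons j u => exact ⟨j, u, rfl⟩
  have hnd : ∀ t, N < t.length → dl φ f t = 0 := by
    intro t ht
    by_contra h
    have := hN t h
    omega
  have hj : (f : List J → A) (j :: u) = φ j ((f : List J → A) u) := by
    have := hnd (j :: u) (by omega)
    rwa [dl_cons, sub_eq_zero] at this
  obtain ⟨n, hn⟩ := H2 j ((f : List J → A) u)
  rw [← hj] at hn
  have hcone : ∀ w : List J, pw ((f : List J → A) (w ++ (j :: u))) n = 0 := by
    intro w
    induction w with
    | nil => exact hn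
    | cons i w ih =>
      have h1 : (f : List J → A) (i :: w ++ (j :: u)) = φ i ((f : List J → A) (w ++ (j :: u))) := by
        have := hnd (i :: (w ++ (j :: u))) (by
          simp only [List.length_cons, List.length_append] at hv ⊢; omega)
        rw [dl_cons, sub_eq_zero] at this
        exact this
      rw [h1, ← map_pw, ih, map_zero]
  refine ⟨n, ?_⟩
  rw [← map_pw]
  rcases hS (g (pw f n)) (g e) (by
    intro r
    obtain ⟨r, rfl⟩ := hg r
    rw [← map_mul, ← map_mul]
    have : pw f n * r * e = 0 := by
      apply Subtype.ext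
      funext w
      change ((pw f n : treeRing φ) : List J → A) w * (r : List J → A) w * (e : List J → A) w = 0
      by_cases hew : (e : List J → A) w = 0
      · rw [hew, mul_zero]
      · obtain ⟨w', rfl⟩ := he w hew
        rw [pw_coe, hcone, zero_mul, zero_mul]
    rw [this, map_zero]) with h | h
  · exact h
  · exact absurd h hge

end Prime

end Tree

/-- The tree argument: from `A`, `φ` to the non-speciality of the radical. -/
theorem not_special {A : Type} [NonUnitalRing A] {J : Type} (φ : J → A →ₙ+* A) (hA : Nontrivial A)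
    (H1 : ∀ a : A, a ≠ 0 → {j | ∃ r, ¬ NN (r * φ j a)}.Infinite)
    (H2 : ∀ j x, NN (φ j x)) (H3 : SumNil A) :
    ¬ (∃ M : (S : Type) → NonUnitalRing S → Prop,
      (∀ (S : Type) [iS : NonUnitalRing S], M S iS →
          Nontrivial S ∧ ∀ a b : S, (∀ r : S, a * r * b = 0) → a = 0 ∨ b = 0) ∧
      (∀ (A K : Type) [iA : NonUnitalRing A] [iK : NonUnitalRing K] (f : A →ₙ+* K),
          Function.Injective f →
          (∀ (k : K) (a : A), k * f a ∈ Set.range f ∧ f a * k ∈ Set.range f) →
          ((Nontrivial A → M K iK → M A iA) ∧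
           ((∀ J : AddSubgroup K, (∀ (k x : K), x ∈ J → k * x ∈ J ∧ x * k ∈ J) → J ≠ ⊥ →
               ∃ a : A, f a ≠ 0 ∧ f a ∈ J) → M A iA → M K iK))) ∧
      (∀ (R : Type) [iR : NonUnitalRing R],
        (∀ (S : Type) [iS : NonUnitalRing S] (g : R →ₙ+* S), Function.Surjective g →
            (∀ L : AddSubgroup S,
               ((∀ (r x : S), x ∈ L → r * x ∈ L) ∨ (∀ (r x : S), x ∈ L → x * r ∈ L)) →
               (∀ x ∈ L, ∃ n : ℕ, (fun y => x * y)^[n] x = 0) → L = ⊥) →
            Subsingleton S) ↔
        (∀ (S : Type) [iS : NonUnitalRing S] (g : R →ₙ+* S), Function.Surjective g →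
            M S iS → Subsingleton S))) := by
  rintro ⟨M, hM1, hM2, hM3⟩
  -- rings in `M` are not sums of nil left ideals
  have key : ∀ (B : Type) [iB : NonUnitalRing B], M B iB → ¬ SumNil B := by
    intro B iB hB hsum
    have hnt := (hM1 B hB).1
    have h1 := (hM3 B).1 (by
      intro S iS g hg hno
      refine (hsum.map g hg).subsingleton ?_
      intro L hL
      exact hno L (Or.inl hL.1) (fun x hx => by
        obtain ⟨n, hn⟩ := hL.2 x hx
        exact ⟨n, by rw [iter_eq_pw]; exact hn⟩))
    have h2 := h1 B (NonUnitalRingHom.id B) Function.surjective_id hB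
    exact not_subsingleton B h2
  -- the tree ring
  have hR : ¬ (∀ (S : Type) [iS : NonUnitalRing S] (g : treeRing φ →ₙ+* S), Function.Surjective g →
            M S iS → Subsingleton S) := by
    intro hall
    have h1 := (hM3 (treeRing φ)).2 hall (treeRing φ) (NonUnitalRingHom.id _)
      Function.surjective_id (by
        intro L hL hnil
        refine no_nil φ H1 L hL ?_
        intro x hx
        obtain ⟨n, hn⟩ := hnil x hx
        exact ⟨n, by rw [← iter_eq_pw]; exact hn⟩)
    obtain ⟨a, b, hab⟩ := hA
    apply hab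
    have h2 : secHom φ [] a = secHom φ [] b := Subsingleton.elim _ _
    have h3 := congrFun (congrArg Subtype.val h2) []
    rw [coe_secHom, coe_secHom, sec_self, sec_self] at h3
    exact h3
  push Not at hR
  obtain ⟨S, iS, g, hg, hMS, hnS⟩ := hR
  obtain ⟨hnt, hprime⟩ := hM1 S hMS
  by_cases hcase : ∃ u : List J, (∃ f, Cone φ u f ∧ g f ≠ 0) ∧
      ∀ (j : J) (f : treeRing φ), Cone φ (j :: u) f → g f = 0
  · obtain ⟨u, ⟨f0, hf0, hgf0⟩, hu⟩ := hcase
    have hfac := caseA φ g u hu
    -- the ideal
    let B : NonUnitalSubring S := (g.comp (secHom φ u)).range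
    have hmem : ∀ f, Cone φ u f → g f ∈ B := by
      intro f hf
      exact ⟨(f : List J → A) u, (hfac f hf).symm⟩
    have hB1 : ∀ (s : S) (b : B), s * (b : S) ∈ B := by
      rintro s ⟨_, a, rfl⟩
      obtain ⟨r, rfl⟩ := hg s
      change g r * g (secHom φ u a) ∈ B
      rw [← map_mul]
      apply hmem
      intro v hv
      apply cone_sec φ u a v
      intro h0
      apply hv
      change (r : List J → A) v * (secHom φ u a : List J → A) v = 0
      rw [h0, mul_zero]
    have hB2 : ∀ (s : S) (b : B), (b : S) * s ∈ B := by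
      rintro s ⟨_, a, rfl⟩
      obtain ⟨r, rfl⟩ := hg s
      change g (secHom φ u a) * g r ∈ B
      rw [← map_mul]
      apply hmem
      intro v hv
      apply cone_sec φ u a v
      intro h0
      apply hv
      change (secHom φ u a : List J → A) v * (r : List J → A) v = 0
      rw [h0, zero_mul]
    have hMB : M B inferInstance := by
      refine (hM2 B S (NonUnitalSubringClass.subtype B) Subtype.val_injective ?_).1 ?_ hMS
      · intro k a
        exact ⟨⟨⟨_, hB1 k a⟩, rfl⟩, ⟨⟨_, hB2 k a⟩, rfl⟩⟩
      · refine ⟨⟨⟨g f0, hmem f0 hf0⟩, 0, ?_⟩⟩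
        intro h
        exact hgf0 (congrArg Subtype.val h)
    refine key B hMB ?_
    refine SumNil.map (A := A) ((g.comp (secHom φ u)).rangeRestrict) ?_ H3
    exact NonUnitalRingHom.rangeRestrict_surjective _
  · push Not at hcase
    have hu : ∀ n, ∃ u : List J, u.length = n ∧ ∃ f, Cone φ u f ∧ g f ≠ 0 := by
      intro n
      induction n with
      | zero =>
        refine ⟨[], rfl, ?_⟩
        obtain ⟨s, hs⟩ := exists_ne (0 : S)
        obtain ⟨f, rfl⟩ := hg s
        exact ⟨f, fun v _ => List.nil_suffix, hs⟩
      | succ n ih =>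
        obtain ⟨u, hl, hf⟩ := ih
        obtain ⟨j, f, h1, h2⟩ := hcase u hf
        exact ⟨j :: u, by simp [hl], f, h1, h2⟩
    have hnil := caseB φ g hg hprime H2 hu
    refine key S hMS ?_
    intro s
    exact AddSubgroup.subset_closure ⟨⊤, ⟨fun _ _ _ => AddSubgroup.mem_top _,
      fun x _ => hnil x⟩, AddSubgroup.mem_top _⟩

end Pool.Agent.H551R2
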