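import Mathlib
import Pool.Agent.H22R2.Main
import Pool.Agent.H551R2.Tree
import Pool.Agent.H551R2.Graded

/-!
# The ring of finitely supported families of matrices over the nil algebra, and its endomorphisms
-/

open Polynomial

namespace Pool.Agent.H551R2

open Pool.Agent.H22R2

noncomputable section

section General

variable {F : Type} [Field F] {Q : Type} [Ring Q] [Algebra F Q] (D : TwoSidedIdeal Q)

/-- matrices over a nil ideal have left quasi-inverses -/
theorem exists_left_inv (hD : ∀ d ∈ D, IsNilpotent d) {σ : Type} [Fintype σ] [DecidableEq σ]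
    (y : Matrix σ σ Q) (hy : ∀ i j, y i j ∈ D) : ∃ z, z * (1 - y) = 1 := by
  have h1 : y ∈ (⊥ : TwoSidedIdeal Q).jacobson.matrix σ := by
    rw [TwoSidedIdeal.mem_matrix]
    intro i j
    rw [TwoSidedIdeal.mem_jacobson_iff]
    intro x
    have h2 : IsNilpotent (x * y i j) := hD _ (D.mul_mem_left _ _ (hy i j))
    have h3 : IsUnit (1 + x * y i j) := h2.isUnit_one_add
    obtain ⟨u, hu⟩ := h3
    refine ⟨(u⁻¹ : Qˣ), ?_⟩
    have h4 : ((u⁻¹ : Qˣ) : Q) * (1 + x * y i j) = 1 := by rw [← hu]; exact Units.inv_mul u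
    rw [mul_add, mul_one, ← mul_assoc] at h4
    rw [add_comm, h4, sub_self]
    exact TwoSidedIdeal.zero_mem _
  rw [TwoSidedIdeal.matrix_jacobson_bot, TwoSidedIdeal.mem_jacobson_iff] at h1
  obtain ⟨z, hz⟩ := h1 (-1)
  refine ⟨z, ?_⟩
  have : z * -1 * y + z - 1 = 0 := by
    have := hz
    rwa [TwoSidedIdeal.mem_bot] at this
  rw [sub_eq_zero] at this
  calc z * (1 - y) = z * -1 * y + z := by noncomm_ring
    _ = 1 := this

theorem aeval_mem {σ : Type} [Fintype σ] [DecidableEq σ] (M : Matrix σ σ Q)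
    (hM : ∀ i j, M i j ∈ D) (p : F[X]) (hp : p.coeff 0 = 0) (i j : σ) : aeval M p i j ∈ D := by
  have h1 := divX_mul_X_add p
  rw [hp, C_0, add_zero] at h1
  rw [← h1, map_mul, aeval_X, Matrix.mul_apply]
  exact D.finsetSum_mem _ _ (fun l _ => D.mul_mem_left _ _ (hM l j))

theorem nilp_of_aeval (hD : ∀ d ∈ D, IsNilpotent d) {σ : Type} [Fintype σ] [DecidableEq σ]
    (M : Matrix σ σ Q) (hM : ∀ i j, M i j ∈ D) (h : F[X]) (hh : h ≠ 0)
    (hnil : IsNilpotent (aeval M h)) : IsNilpotent M := by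
  obtain ⟨q, hq1, hq2⟩ := exists_eq_pow_rootMultiplicity_mul_and_not_dvd h hh 0
  set c := rootMultiplicity 0 h
  rw [C_0, sub_zero] at hq1 hq2
  rw [X_dvd_iff] at hq2
  set u := q.coeff 0
  have hq3 : q = C u * (1 - (-C u⁻¹ * (divX q * X))) := by
    conv_lhs => rw [← divX_mul_X_add q]
    have : C u * C u⁻¹ = (1 : F[X]) := by rw [← C_mul, mul_inv_cancel₀ hq2, C_1]
    linear_combination -(divX q * X) * this
  set y : F[X] := -C u⁻¹ * (divX q * X) with hy
  obtain ⟨z, hz⟩ := exists_left_inv D hD (aeval M y) (aeval_mem D M hM y (by simp [hy]))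
  have hzn : ∀ n : ℕ, z ^ n * (1 - aeval M y) ^ n = 1 := by
    intro n
    induction n with
    | zero => simp
    | succ n ih =>
      rw [pow_succ, pow_succ', mul_assoc, ← mul_assoc z, hz, one_mul, ih]
  obtain ⟨n, hn⟩ := hnil
  refine ⟨c * n, ?_⟩
  rw [← map_pow, hq1, hq3] at hn
  have hn2 : (1 - aeval M y) ^ n * M ^ (c * n) = 0 := by
    have h5 : (1 - y) ^ n * X ^ (c * n) = C (u⁻¹ ^ n) * (X ^ c * (C u * (1 - y))) ^ n := by
      rw [mul_pow, mul_pow, C_pow, ← pow_mul]
      have : C u⁻¹ ^ n * C u ^ n = (1 : F[X]) := by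
        rw [← mul_pow, ← C_mul, inv_mul_cancel₀ hq2, C_1, one_pow]
      linear_combination -((1 - y) ^ n * X ^ (c * n)) * this
    have h6 := congrArg (aeval M) h5
    rw [map_mul (aeval M) (C _), hn, mul_zero] at h6
    simpa using h6
  calc M ^ (c * n) = z ^ n * (1 - aeval M y) ^ n * M ^ (c * n) := by rw [hzn, one_mul]
    _ = 0 := by rw [mul_assoc, hn2, mul_zero]

/-- evaluation `X ↦ M` of a matrix of polynomials, flattened and reindexed -/
def UU {κ : Type} [Fintype κ] [DecidableEq κ] (M : Matrix κ κ Q) (σ : Type) [Fintype σ]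
    [DecidableEq σ] : Matrix σ σ F[X] →+*
      Matrix (Fin (Fintype.card (σ × κ))) (Fin (Fintype.card (σ × κ))) Q :=
  ((Matrix.reindexRingEquiv Q (Fintype.equivFin (σ × κ))).toRingHom.comp
    (Matrix.compRingEquiv σ κ Q).toRingHom).comp (aeval M : F[X] →ₐ[F] _).toRingHom.mapMatrix

theorem UU_apply {κ : Type} [Fintype κ] [DecidableEq κ] (M : Matrix κ κ Q) (σ : Type) [Fintype σ]
    [DecidableEq σ] (Y : Matrix σ σ F[X]) (i j) :
    UU M σ Y i j = (aeval M (Y ((Fintype.equivFin (σ × κ)).symm i).1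
      ((Fintype.equivFin (σ × κ)).symm j).1))
      ((Fintype.equivFin (σ × κ)).symm i).2 ((Fintype.equivFin (σ × κ)).symm j).2 := rfl

theorem UU_mem {κ : Type} [Fintype κ] [DecidableEq κ] (M : Matrix κ κ Q)
    (hM : ∀ i j, M i j ∈ D) (σ : Type) [Fintype σ]
    [DecidableEq σ] (Y : Matrix σ σ F[X]) (hY : ∀ i j, (Y i j).coeff 0 = 0) (i j) :
    UU M σ Y i j ∈ D := by
  rw [UU_apply]
  exact aeval_mem D M hM _ (hY _ _) _ _

theorem UU_eq_zero {κ : Type} [Fintype κ] [DecidableEq κ] (M : Matrix κ κ Q) (σ : Type) [Fintype σ]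
    [DecidableEq σ] (Y : Matrix σ σ F[X]) (h : UU M σ Y = 0) (p q : σ) : aeval M (Y p q) = 0 := by
  apply Matrix.ext
  intro a b
  have := congrFun (congrFun h (Fintype.equivFin (σ × κ) (p, a)))
    (Fintype.equivFin (σ × κ) (q, b))
  rw [UU_apply] at this
  simpa using this

theorem row_pow {σ R : Type} [Fintype σ] [DecidableEq σ] [Ring R] (Z : Matrix σ σ R) (q : σ)
    (hZ : ∀ i j, i ≠ q → Z i j = 0) (n : ℕ) : (Z ^ n) q q = (Z q q) ^ n := by
  induction n with
  | zero => simp
  | succ n ih =>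
    rw [pow_succ, pow_succ, Matrix.mul_apply, Finset.sum_eq_single q, ih]
    · intro l _ hl
      rw [hZ l q hl, mul_zero]
    · intro h; exact absurd (Finset.mem_univ _) h

/-- `r * U(Y)` is not nilpotent for a suitable `r` over `D` -/
theorem UU_not_nil (hD : ∀ d ∈ D, IsNilpotent d) {κ : Type} [Fintype κ] [DecidableEq κ]
    (M : Matrix κ κ Q) (hM : ∀ i j, M i j ∈ D) (hM2 : ¬ IsNilpotent M) (σ : Type) [Fintype σ]
    [DecidableEq σ] (Y : Matrix σ σ F[X]) (hY : Y ≠ 0) :
    ∃ r : Matrix (Fin (Fintype.card (σ × κ))) (Fin (Fintype.card (σ × κ))) Q,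
      (∀ i j, r i j ∈ D) ∧ ¬ IsNilpotent (r * UU M σ Y) := by
  obtain ⟨p, q, hpq⟩ : ∃ p q, Y p q ≠ 0 := by
    by_contra hcon
    push Not at hcon
    exact hY (Matrix.ext hcon)
  refine ⟨UU M σ (Matrix.single q p (X : F[X])), ?_, ?_⟩
  · apply UU_mem D M hM
    intro i j
    rw [Matrix.single_apply]
    split_ifs <;> simp
  · rintro ⟨n, hn⟩
    rw [← map_mul, ← map_pow] at hn
    have h1 := UU_eq_zero M σ _ hn q q
    rw [row_pow] at h1
    · apply hM2
      refine nilp_of_aeval D hD M hM ((Matrix.single q p (X : F[X]) * Y) q q) ?_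
        ⟨n, by rw [← map_pow]; exact h1⟩
      rw [Matrix.single_mul_apply_same]
      exact mul_ne_zero X_ne_zero hpq
    · intro i j hi
      rw [Matrix.mul_apply]
      apply Finset.sum_eq_zero
      intro l _
      rw [Matrix.single_apply, if_neg, zero_mul]
      rintro ⟨h1, _⟩
      exact hi h1.symm

end General

section Main

variable {Q : Type} [Ring Q] (D : TwoSidedIdeal Q)

/-- finitely supported families of matrices over `D` -/
def AA : NonUnitalSubring ((n : ℕ) → Matrix (Fin n) (Fin n) Q) where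
  carrier := {a | (∀ n i j, a n i j ∈ D) ∧ {n | a n ≠ 0}.Finite}
  zero_mem' := ⟨fun n i j => D.zero_mem, by simp⟩
  add_mem' := by
    rintro a b ⟨ha, ha'⟩ ⟨hb, hb'⟩
    refine ⟨fun n i j => D.add_mem (ha n i j) (hb n i j), (ha'.union hb').subset ?_⟩
    intro n hn
    by_contra hcon
    simp only [Set.mem_union, Set.mem_ofPred_eq, not_or, not_not] at hcon
    apply hn
    rw [Pi.add_apply, hcon.1, hcon.2, add_zero]
  neg_mem' := by
    rintro a ⟨ha, ha'⟩
    refine ⟨fun n i j => D.neg_mem (ha n i j), ha'.subset ?_⟩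
    intro n hn hcon
    apply hn
    rw [Pi.neg_apply, hcon, neg_zero]
  mul_mem' := by
    rintro a b ⟨ha, ha'⟩ ⟨hb, hb'⟩
    refine ⟨fun n i j => ?_, ha'.subset ?_⟩
    · rw [Pi.mul_apply, Matrix.mul_apply]
      exact D.finsetSum_mem _ _ (fun l _ => D.mul_mem_left _ _ (hb n l j))
    · intro n hn hcon
      apply hn
      rw [Pi.mul_apply, hcon, zero_mul]

theorem mem_AA {a : (n : ℕ) → Matrix (Fin n) (Fin n) Q} :
    a ∈ AA D ↔ (∀ n i j, a n i j ∈ D) ∧ {n | a n ≠ 0}.Finite := Iff.rfl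

theorem single_mem (n : ℕ) (x : Matrix (Fin n) (Fin n) Q) (hx : ∀ i j, x i j ∈ D) :
    Pi.single n x ∈ AA D := by
  rw [mem_AA]
  constructor
  · intro m i j
    by_cases h : m = n
    · subst h; rw [Pi.single_eq_same]; exact hx i j
    · rw [Pi.single_eq_of_ne h]; exact D.zero_mem
  · refine (Set.finite_singleton n).subset ?_
    intro m hm
    by_contra hne
    exact hm (Pi.single_eq_of_ne hne _)

theorem pw_eq_pow {R : Type*} [Ring R] (x : R) (n : ℕ) : pw x n = x ^ (n + 1) := by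
  induction n with
  | zero => rw [zero_add, pow_one]; rfl
  | succ n ih => rw [pw, ih, ← pow_succ']

theorem NN_AA_iff (x : AA D) : NN x ↔ ∃ n : ℕ, ∀ m, ((x : (n : ℕ) → Matrix (Fin n) (Fin n) Q) m) ^ n = 0 := by
  have key : ∀ n, ((pw x n : AA D) : (n : ℕ) → Matrix (Fin n) (Fin n) Q) =
      (x : (n : ℕ) → Matrix (Fin n) (Fin n) Q) ^ (n + 1) := by
    intro n
    rw [← pw_eq_pow]
    exact map_pw (NonUnitalSubringClass.subtype (AA D)) x n
  constructor
  · rintro ⟨n, hn⟩
    refine ⟨n + 1, fun m => ?_⟩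
    have := congrFun (key n) m
    rw [hn] at this
    exact this.symm
  · rintro ⟨n, hn⟩
    refine ⟨n, ?_⟩
    apply Subtype.ext
    rw [key]
    funext m
    rw [Pi.pow_apply, pow_succ, hn m, zero_mul]
    rfl

/-- a homomorphism from the `m`-th component to the `N`-th one -/
def endo (m N : ℕ) (θ : Matrix (Fin m) (Fin m) Q →+* Matrix (Fin N) (Fin N) Q)
    (hθ : ∀ x, (∀ i j, x i j ∈ D) → ∀ i j, θ x i j ∈ D) : AA D →ₙ+* AA D where
  toFun a := ⟨Pi.single N (θ (a.1 m)), single_mem D N _ (hθ _ (a.2.1 m))⟩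
  map_zero' := by
    apply Subtype.ext
    change (Pi.single N (θ 0) : (n : ℕ) → Matrix (Fin n) (Fin n) Q) = 0
    rw [map_zero, Pi.single_zero]
  map_add' a b := by
    apply Subtype.ext
    change (Pi.single N (θ (a.1 m + b.1 m)) : (n : ℕ) → Matrix (Fin n) (Fin n) Q) =
      Pi.single N (θ (a.1 m)) + Pi.single N (θ (b.1 m))
    rw [map_add, Pi.single_add]
  map_mul' a b := by
    apply Subtype.ext
    change (Pi.single N (θ (a.1 m * b.1 m)) : (n : ℕ) → Matrix (Fin n) (Fin n) Q) =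
      Pi.single N (θ (a.1 m)) * Pi.single N (θ (b.1 m))
    rw [map_mul, Pi.single_mul]

theorem coe_endo (m N : ℕ) (θ : Matrix (Fin m) (Fin m) Q →+* Matrix (Fin N) (Fin N) Q)
    (hθ : ∀ x, (∀ i j, x i j ∈ D) → ∀ i j, θ x i j ∈ D) (a : AA D) :
    (endo D m N θ hθ a).1 = Pi.single N (θ (a.1 m)) := rfl

/-- the `c`-th column of the `n`-th component -/
def colSub (n : ℕ) (c : Fin n) : AddSubgroup (AA D) where
  carrier := {x | (∀ m, m ≠ n → x.1 m = 0) ∧ ∀ i j, j ≠ c → x.1 n i j = 0}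
  zero_mem' := ⟨fun _ _ => rfl, fun _ _ _ => rfl⟩
  add_mem' := by
    rintro a b ⟨ha, ha'⟩ ⟨hb, hb'⟩
    refine ⟨fun m hm => ?_, fun i j hj => ?_⟩
    · change a.1 m + b.1 m = 0
      rw [ha m hm, hb m hm, add_zero]
    · change a.1 n i j + b.1 n i j = 0
      rw [ha' i j hj, hb' i j hj, add_zero]
  neg_mem' := by
    rintro a ⟨ha, ha'⟩
    refine ⟨fun m hm => ?_, fun i j hj => ?_⟩
    · change - a.1 m = 0
      rw [ha m hm, neg_zero]
    · change - a.1 n i j = 0
      rw [ha' i j hj, neg_zero]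

theorem col_pow {σ R : Type} [Fintype σ] [DecidableEq σ] [Ring R] (Z : Matrix σ σ R) (q : σ)
    (hZ : ∀ i j, j ≠ q → Z i j = 0) (n : ℕ) (i j : σ) :
    (Z ^ (n + 1)) i j = if j = q then Z i q * (Z q q) ^ n else 0 := by
  induction n generalizing i j with
  | zero =>
    rw [zero_add, pow_one, pow_zero, mul_one]
    split_ifs with h
    · rw [h]
    · exact hZ i j h
  | succ n ih =>
    rw [pow_succ, Matrix.mul_apply]
    split_ifs with h
    · subst h
      rw [Finset.sum_eq_single j]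
      · rw [ih, if_pos rfl, mul_assoc, ← pow_succ]
      · intro l _ hl
        rw [ih, if_neg hl, zero_mul]
      · intro h; exact absurd (Finset.mem_univ _) h
    · exact Finset.sum_eq_zero (fun l _ => by rw [hZ l j h, mul_zero])

theorem nilLeft_colSub (hD : ∀ d ∈ D, IsNilpotent d) (n : ℕ) (c : Fin n) :
    NilLeft (colSub D n c) := by
  constructor
  · rintro r x ⟨hx, hx'⟩
    refine ⟨fun m hm => ?_, fun i j hj => ?_⟩
    · change r.1 m * x.1 m = 0
      rw [hx m hm, mul_zero]
    · change (r.1 n * x.1 n) i j = 0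
      rw [Matrix.mul_apply]
      exact Finset.sum_eq_zero (fun l _ => by rw [hx' l j hj, mul_zero])
  · rintro x ⟨hx, hx'⟩
    obtain ⟨k, hk⟩ := hD _ (x.2.1 n c c)
    rw [NN_AA_iff]
    refine ⟨k + 1, fun m => ?_⟩
    by_cases hm : m = n
    · subst hm
      apply Matrix.ext
      intro i j
      rw [col_pow _ c hx', hk, mul_zero, ite_self]
      rfl
    · rw [hx m hm, pow_succ, mul_zero]

theorem sumNil_AA (hD : ∀ d ∈ D, IsNilpotent d) : SumNil (AA D) := by
  intro a
  -- columns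
  have hcol : ∀ (n : ℕ) (x : Matrix (Fin n) (Fin n) Q) (hx : ∀ i j, x i j ∈ D),
      (⟨Pi.single n x, single_mem D n x hx⟩ : AA D) ∈
        AddSubgroup.closure {x : AA D | ∃ L : AddSubgroup (AA D), NilLeft L ∧ x ∈ L} := by
    intro n x hx
    have hc : ∀ c : Fin n, ∀ i j, (Matrix.of fun i j => if j = c then x i j else 0 :
        Matrix (Fin n) (Fin n) Q) i j ∈ D := by
      intro c i j
      rw [Matrix.of_apply]
      split_ifs
      · exact hx i j
      · exact D.zero_mem
    have heq : (⟨Pi.single n x, single_mem D n x hx⟩ : AA D) = ∑ c : Fin n,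
        (⟨Pi.single n (Matrix.of fun i j => if j = c then x i j else 0), single_mem D n _ (hc c)⟩ :
          AA D) := by
      apply Subtype.ext
      have h1 : ((∑ c : Fin n, (⟨Pi.single n (Matrix.of fun i j => if j = c then x i j else 0),
          single_mem D n _ (hc c)⟩ : AA D) : AA D) : (n : ℕ) → Matrix (Fin n) (Fin n) Q) =
          ∑ c : Fin n, (Pi.single n (Matrix.of fun i j => if j = c then x i j else 0) :
            (n : ℕ) → Matrix (Fin n) (Fin n) Q) :=
        map_sum (NonUnitalSubringClass.subtype (AA D)) _ _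
      rw [h1]
      funext m
      rw [Finset.sum_apply]
      by_cases hm : m = n
      · subst hm
        simp only [Pi.single_eq_same]
        apply Matrix.ext
        intro i j
        rw [Matrix.sum_apply]
        simp [Matrix.of_apply]
      · simp [Pi.single_eq_of_ne hm]
    rw [heq]
    refine AddSubgroup.sum_mem _ (fun c _ => AddSubgroup.subset_closure
      ⟨colSub D n c, nilLeft_colSub D hD n c, ?_, ?_⟩)
    · intro m hm
      exact Pi.single_eq_of_ne hm _
    · intro i j hj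
      change (Pi.single n (Matrix.of fun i j => if j = c then x i j else 0) :
            (n : ℕ) → Matrix (Fin n) (Fin n) Q) n i j = 0
      rw [Pi.single_eq_same, Matrix.of_apply, if_neg hj]
  have heq : a = ∑ n ∈ a.2.2.toFinset,
      (⟨Pi.single n (a.1 n), single_mem D n _ (a.2.1 n)⟩ : AA D) := by
    apply Subtype.ext
    have h1 : ((∑ n ∈ a.2.2.toFinset,
      (⟨Pi.single n (a.1 n), single_mem D n _ (a.2.1 n)⟩ : AA D) : AA D) :
        (n : ℕ) → Matrix (Fin n) (Fin n) Q) =
        ∑ n ∈ a.2.2.toFinset, (Pi.single n (a.1 n) : (n : ℕ) → Matrix (Fin n) (Fin n) Q) :=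
      map_sum (NonUnitalSubringClass.subtype (AA D)) _ _
    rw [h1]
    funext m
    rw [Finset.sum_apply]
    by_cases hm : m ∈ a.2.2.toFinset
    · rw [Finset.sum_eq_single m]
      · rw [Pi.single_eq_same]
      · intro n _ hn
        exact Pi.single_eq_of_ne hn.symm _
      · intro h; exact absurd hm h
    · rw [Finset.sum_eq_zero]
      · rw [Set.Finite.mem_toFinset, Set.mem_ofPred_eq, not_not] at hm
        exact hm
      · intro n hn
        apply Pi.single_eq_of_ne
        rintro rfl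
        exact hm hn
  rw [heq]
  exact AddSubgroup.sum_mem _ (fun n _ => hcol n _ (a.2.1 n))

end Main

end

end Pool.Agent.H551R2
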