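import Mathlib
import Pool.Agent.H22R2.Main
import Pool.Agent.H551R2.Tree
import Pool.Agent.H551R2.Graded
import Pool.Agent.H551R2.Mats

/-!
# The ring `AA D` with its endomorphisms satisfies the hypotheses of the tree argument
-/

open Polynomial

namespace Pool.Agent.H551R2

open Pool.Agent.H22R2

noncomputable section

variable {F : Type} [Field F] (I : TwoSidedIdeal (MonoidAlgebra F Wd))
  (hI : ∀ a ∈ I, ∀ n : ℕ, MonoidAlgebra.ofCoeff (a.coeff.filter (fun μ => μ.length = n)) ∈ I)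

/-- matrices over the quotient, represented by matrices of polynomials -/
def VV (m k : ℕ) : Matrix (Fin m) (Fin m) I.ringCon.Quotient →+*
    Matrix (Fin m × Fin (dk I k)) (Fin m × Fin (dk I k)) F[X] :=
  (Matrix.compRingEquiv (Fin m) (Fin (dk I k)) F[X]).toRingHom.comp (Psi I hI k).mapMatrix

theorem VV_apply (m k : ℕ) (y : Matrix (Fin m) (Fin m) I.ringCon.Quotient)
    (p q : Fin m × Fin (dk I k)) : VV I hI m k y p q = Psi I hI k (y p.1 q.1) p.2 q.2 := rfl

theorem VV_low (m k : ℕ) (y : Matrix (Fin m) (Fin m) I.ringCon.Quotient)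
    (hy : ∀ i j, y i j ∈ augIdeal I) (p q) : (VV I hI m k y p q).coeff 0 = 0 := by
  rw [VV_apply]
  exact Psi_low I hI k _ (hy _ _) _ _

theorem VV_deg (m k : ℕ) (y : Matrix (Fin m) (Fin m) I.ringCon.Quotient) (p q) (n : ℕ)
    (hn : k ≤ n) : (VV I hI m k y p q).coeff n = 0 := by
  rw [VV_apply]
  exact Psi_deg I hI k _ _ _ n hn

theorem VV_nil (m k : ℕ) (y : Matrix (Fin m) (Fin m) I.ringCon.Quotient)
    (hy : ∀ i j, y i j ∈ augIdeal I) : (VV I hI m k y) ^ k = 0 := by
  set Y := VV I hI m k y with hY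
  have h1 : Y = (X : F[X]) • (Matrix.of fun p q => divX (Y p q)) := by
    apply Matrix.ext
    intro p q
    rw [Matrix.smul_apply, Matrix.of_apply, smul_eq_mul, mul_comm]
    have := divX_mul_X_add (Y p q)
    rw [hY, VV_low I hI m k y hy, C_0, add_zero, ← hY] at this
    exact this.symm
  have h2 : Y ^ k = (X : F[X]) ^ k • (Matrix.of fun p q => divX (Y p q)) ^ k := by
    conv_lhs => rw [h1]
    rw [_root_.smul_pow]
  apply Matrix.ext
  intro p q
  rw [Matrix.zero_apply]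
  ext n
  rw [coeff_zero]
  by_cases hn : k ≤ n
  · rw [hY, ← map_pow]
    exact VV_deg I hI m k _ p q n hn
  · rw [h2, Matrix.smul_apply, smul_eq_mul, coeff_X_pow_mul', if_neg hn]

theorem VV_sep (m : ℕ) (y : Matrix (Fin m) (Fin m) I.ringCon.Quotient) (hy : y ≠ 0) :
    ∃ k, VV I hI m k y ≠ 0 := by
  obtain ⟨i, j, hij⟩ : ∃ i j, y i j ≠ 0 := by
    by_contra hcon
    push Not at hcon
    exact hy (Matrix.ext hcon)
  obtain ⟨k, hk⟩ := Psi_sep I hI _ hij
  refine ⟨k, fun h => hk ?_⟩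
  apply Matrix.ext
  intro a b
  have := congrFun (congrFun h (i, a)) (j, b)
  rw [VV_apply] at this
  exact this

/-- the ring `AA D` and its endomorphisms -/
theorem exists_ring :
    ∃ (A : Type) (_ : NonUnitalRing A) (J : Type) (φ : J → A →ₙ+* A), Nontrivial A ∧
      (∀ a : A, a ≠ 0 → {j | ∃ r, ¬ NN (r * φ j a)}.Infinite) ∧
      (∀ j x, NN (φ j x)) ∧ SumNil A := by
  let F : Type := ZMod 2
  have : Fact (Nat.Prime 2) := ⟨Nat.prime_two⟩
  obtain ⟨I, h1, hI, h3⟩ := exists_ideal F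
  have hD : ∀ d ∈ augIdeal I, IsNilpotent d := by
    intro d hd
    obtain ⟨a, ha, rfl⟩ := (mem_augIdeal I d).mp hd
    rw [eps_eq] at ha
    obtain ⟨n, hn⟩ := h1 a ha
    exact ⟨n, by rw [← map_pow, mk_eq_zero]; exact hn⟩
  obtain ⟨M, hM, hM2⟩ : ∃ M : Matrix (Fin 3) (Fin 3) I.ringCon.Quotient,
      (∀ i j, M i j ∈ augIdeal I) ∧ ¬ IsNilpotent M := by
    refine ⟨(I.ringCon.mk').mapMatrix (Cmat F ^ 3), ?_, ?_⟩
    · intro i j
      rw [mem_augIdeal]
      refine ⟨(Cmat F ^ 3) i j, ?_, rfl⟩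
      have h : (eps F).toRingHom.mapMatrix (Cmat F ^ 3) = 0 := by
        rw [map_pow]
        have h0 : (eps F).toRingHom.mapMatrix (Cmat F) = !![0, 1, 0; 0, 0, 1; 0, 0, 0] := by
          unfold Cmat
          ext i j
          fin_cases i <;> fin_cases j <;>
            simp only [RingHom.mapMatrix_apply, Matrix.map_apply] <;>
            simp [eps_xi, -MonoidAlgebra.of_apply]
        rw [h0]
        ext i j
        fin_cases i <;> fin_cases j <;> simp [pow_succ, Matrix.mul_apply, Fin.sum_univ_succ]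
      exact congrFun (congrFun h i) j
    · rintro ⟨n, hn⟩
      rw [map_pow, ← pow_mul, ← map_pow] at hn
      obtain ⟨i, j, hij⟩ := h3 (3 * n)
      apply hij
      rw [← mk_eq_zero]
      exact congrFun (congrFun hn i) j
  let θ : (p : ℕ × ℕ) → Matrix (Fin p.1) (Fin p.1) I.ringCon.Quotient →+*
      Matrix (Fin (Fintype.card ((Fin p.1 × Fin (dk I p.2)) × Fin 3)))
        (Fin (Fintype.card ((Fin p.1 × Fin (dk I p.2)) × Fin 3))) I.ringCon.Quotient :=
    fun p => (UU M (Fin p.1 × Fin (dk I p.2))).comp (VV I hI p.1 p.2)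
  have hθ : ∀ p x, (∀ i j, x i j ∈ augIdeal I) → ∀ i j, θ p x i j ∈ augIdeal I := by
    intro p x hx i j
    exact UU_mem (augIdeal I) M hM _ _ (fun a b => VV_low I hI _ _ x hx a b) i j
  refine ⟨AA (augIdeal I), inferInstance, (ℕ × ℕ) × ℕ,
    fun j => endo (augIdeal I) j.1.1 _ (θ j.1) (hθ j.1), ?_, ?_, ?_, sumNil_AA _ hD⟩
  · refine ⟨⟨⟨Pi.single 3 M, single_mem _ 3 M hM⟩, 0, ?_⟩⟩
    intro h
    apply hM2
    have := congrFun (congrArg Subtype.val h) 3
    change (Pi.single 3 M : (n : ℕ) → Matrix (Fin n) (Fin n) I.ringCon.Quotient) 3 = 0 at this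
    rw [Pi.single_eq_same] at this
    rw [this]
    exact IsNilpotent.zero
  · intro a ha
    obtain ⟨m, hm⟩ : ∃ m, a.1 m ≠ 0 := by
      by_contra hcon
      push Not at hcon
      exact ha (Subtype.ext (funext hcon))
    obtain ⟨k, hk⟩ := VV_sep I hI m (a.1 m) hm
    obtain ⟨r, hr1, hr2⟩ := UU_not_nil (augIdeal I) hD M hM hM2 _ _ hk
    refine Set.infinite_of_injective_forall_mem (f := fun n : ℕ => ((m, k), n)) ?_ ?_
    · intro a b hab
      exact (Prod.mk.inj hab).2
    · intro n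
      refine ⟨⟨Pi.single _ r, single_mem _ _ r hr1⟩, ?_⟩
      intro hnn
      rw [NN_AA_iff] at hnn
      obtain ⟨l, hl⟩ := hnn
      apply hr2
      refine ⟨l, ?_⟩
      have := hl (Fintype.card ((Fin m × Fin (dk I k)) × Fin 3))
      change ((Pi.single (Fintype.card ((Fin m × Fin (dk I k)) × Fin 3)) r :
        (n : ℕ) → Matrix (Fin n) (Fin n) I.ringCon.Quotient) _ *
        (Pi.single (Fintype.card ((Fin m × Fin (dk I k)) × Fin 3)) (θ (m, k) (a.1 m)) :
        (n : ℕ) → Matrix (Fin n) (Fin n) I.ringCon.Quotient) _) ^ l = 0 at this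
      rw [Pi.single_eq_same, Pi.single_eq_same] at this
      exact this
  · intro j x
    rw [NN_AA_iff]
    refine ⟨j.1.2 + 1, fun m => ?_⟩
    rw [coe_endo]
    by_cases h : m = Fintype.card ((Fin j.1.1 × Fin (dk I j.1.2)) × Fin 3)
    · subst h
      rw [Pi.single_eq_same]
      change (UU M _ (VV I hI j.1.1 j.1.2 (x.1 j.1.1))) ^ _ = 0
      rw [← map_pow, pow_succ, VV_nil I hI _ _ _ (x.2.1 _), zero_mul, map_zero]
    · rw [Pi.single_eq_of_ne h, pow_succ, mul_zero]

end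

end Pool.Agent.H551R2
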